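import Mathlib

/-!
# Independent groups of complex numbers: definitions
-/

set_option autoImplicit false

open Finset

namespace Pool.Agent.L0h12.NR

/-- Some power of `x` with a positive exponent is a power of `q`. -/
def IsTrivial (q : ℕ) (x : ℂˣ) : Prop := ∃ m : ℕ, 0 < m ∧ ∃ k : ℤ, (x : ℂ) ^ m = (q : ℂ) ^ k

/-- The product of the powers `σ (x) ^ (n σ)` of conjugates of `x`. -/
noncomputable def conj (n : (ℂ ≃+* ℂ) →₀ ℤ) (x : ℂˣ) : ℂˣ :=
  n.prod fun σ m => Units.mapEquiv σ.toMulEquiv x ^ m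

/-- The group generated by the conjugates of the nonzero elements of `B`. -/
def hull (B : Set ℂ) : Subgroup ℂˣ :=
  Subgroup.closure {u | ∃ σ : ℂ ≃+* ℂ, ∃ b ∈ B, (u : ℂ) = σ b}

/-- The elements `y j` are multiplicatively independent modulo the trivial elements. -/
def IsIndep (q : ℕ) {k : ℕ} (y : Fin k → ℂˣ) : Prop :=
  ∀ m : Fin k → ℤ, IsTrivial q (∏ j, y j ^ m j) → m = 0

/-- The rank of `Γ` modulo the trivial elements is at most `r`. -/
def HasRankLE (q r : ℕ) (Γ : Subgroup ℂˣ) : Prop :=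
  ∀ y : Fin (r + 1) → ℂˣ, (∀ j, y j ∈ Γ) → ¬ IsIndep q y

/-- For all nontrivial elements `x` of `Γ` and `y` of `Γ'` there is a multiplicative combination of
conjugates which is trivial for `x` and not for `y`. -/
def IsDisjoint (q : ℕ) (Γ Γ' : Subgroup ℂˣ) : Prop :=
  ∀ x ∈ Γ, ∀ y ∈ Γ', ¬ IsTrivial q x → ¬ IsTrivial q y →
    ∃ n, IsTrivial q (conj n x) ∧ ¬ IsTrivial q (conj n y)

/-- The conjugates of each nontrivial element of `Γ` generate a group of rank at least `g`, modulo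
the trivial elements. -/
def IsLarge (q g : ℕ) (Γ : Subgroup ℂˣ) : Prop :=
  ∀ x ∈ Γ, ¬ IsTrivial q x → ∃ n : Fin g → (ℂ ≃+* ℂ) →₀ ℤ, IsIndep q fun j => conj (n j) x

/-- `Γ` and `Γ'` have, modulo trivial elements, a nontrivial element in common. -/
def Meets (q : ℕ) (Γ Γ' : Subgroup ℂˣ) : Prop :=
  ∃ x ∈ Γ, ¬ IsTrivial q x ∧ ∃ b ∈ Γ', IsTrivial q (x * b)

/-- `Γ` is stable under the automorphisms of the field of complex numbers. -/
def IsStable (Γ : Subgroup ℂˣ) : Prop :=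
  ∀ (σ : ℂ ≃+* ℂ), ∀ x ∈ Γ, Units.mapEquiv σ.toMulEquiv x ∈ Γ

/-- `x` is an eigenvalue of the Frobenius endomorphism of an ordinary elliptic curve over the field
with `q` elements with trace `a`. -/
structure IsOrdinary (q : ℕ) (a : ℤ) (x : ℂˣ) : Prop where
  root : (x : ℂ) ^ 2 - a * x + q = 0
  coprime : IsCoprime a q
  lt : a ^ 2 < 4 * q

end Pool.Agent.L0h12.NR
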