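import Pool.Agent.N876.R816.Defs
import Pool.Agent.L0h12.NR.Base

/-!
# Definitions for `MP_81632f_ag.IndependentFamilies`

The definitions for single groups (`IsTrivial`, `conj`, `hull`, `HasRankLE`, `IsDisjoint`, `IsLarge`,
`Meets`, `IsStable`, `IsOrdinary`) are in the file `Base.lean`.
-/

set_option autoImplicit false

open Finset Polynomial CategoryTheory AlgebraicGeometry

namespace Pool.Agent.L0h12.NR

open Pool.Agent.H914 Pool.Agent.H914.VarClass Pool.Agent.H914.VarClass.Obj Pool.Agent.W492.BB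
  Pool.Agent.W484.CK Pool.Agent.N876.R816

/-- The groups `Γ i` are stable under the automorphisms of `ℂ`, consist of algebraic numbers, have
pairwise no common constituents (up to roots of powers of `q`), and the conjugates of each
nontrivial element of `Γ i` generate a group of rank at least `g i > 0`. -/
structure IsIndependentFamily (q : ℕ) {ι : Type} (g : ι → ℕ) (Γ : ι → Subgroup ℂˣ) : Prop where
  stable : ∀ i, IsStable (Γ i)
  algebraic : ∀ i, ∀ x ∈ Γ i, IsAlgebraic ℚ (x : ℂ)
  disjoint : Pairwise fun i j => IsDisjoint q (Γ i) (Γ j)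
  pos : ∀ i, 0 < g i
  large : ∀ i, IsLarge q (g i) (Γ i)

/-- The space `H` is generated by the subspace `P` (the classes of algebraic cycles) and a subspace
`T` which is stable under `Φ` (the Frobenius), and the eigenvalues of `Φ` on `T` are elements of `Γ`
which are not roots of powers of `q`. -/
def IsOfType {K H : Type} [Field K] [AddCommGroup H] [Module K H] (P : Submodule K H)
    (Φ : Module.End K H) (τ : K →+* ℂ) (q : ℕ) (Γ : Subgroup ℂˣ) : Prop :=
  ∃ (T : Submodule K H) (hΦ : ∀ t ∈ T, Φ t ∈ T), P ⊔ T = ⊤ ∧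
    ∀ α, Module.End.HasEigenvalue (Φ.restrict hΦ) α → ∃ x ∈ Γ, (x : ℂ) = τ α ∧ ¬ IsTrivial q x

/-- `IsOfType` for endomorphisms of an algebra. -/
def IsAlgebraOfType {K H : Type} [Field K] [Ring H] [Algebra K H] (P : Submodule K H)
    (φ : H →ₐ[K] H) (τ : K →+* ℂ) (q : ℕ) (Γ : Subgroup ℂˣ) : Prop :=
  IsOfType P (ofHom φ) τ q Γ

/-- `F` is the Frobenius endomorphism of the varieties over `κ`, the cohomology of the varieties `X i`
is generated by classes of cycles and parts with eigenvalues in `Γ i`, where the `Γ i` are an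
independent family, and the conjugates of the products of the eigenvalues of Frobenius on `Z` and the
roots of the polynomial `χ` generate a group of rank at most `r`. -/
structure IsSystem {κ : Type} [Field κ] [Fintype κ] {𝒱 : VarClass κ}
    {A : TheoryData.{0, 0, 0} 𝒱 ℚ} {K : Type} [Field K] [CharZero K] {ι : Type} (g : ι → ℕ)
    (Γ : ι → Subgroup ℂˣ) (r : ℕ) (H : WeilTheoryData.{0, 0, 0} A K) (τ : K →+* ℂ)
    (F : ∀ X : 𝒱.Obj, X ⟶ X) (X : ι → 𝒱.Obj) (Z : 𝒱.Obj) (χ : ℚ[X]) : Prop where
  standard : IsStandard H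
  frobenius : ∀ X, IsFrobenius A (F X) (Fintype.card κ)
  product : ∀ X Y, F (X.prod Y) = prodMap (F X) (F Y)
  family : IsIndependentFamily (Fintype.card κ) g Γ
  cohomology : ∀ i, IsAlgebraOfType (cycleSpan H (X i)) (H.pull (F (X i))) τ (Fintype.card κ) (Γ i)
  polarized : ∀ i, IsPolarized H (X i)
  algebraic : ∀ b ∈ eigenvaluesOf (H.pull (F Z)) τ, IsAlgebraic ℚ b
  ne_zero : χ.coeff 0 ≠ 0
  rank : HasRankLE (Fintype.card κ) r (hull (productsOf (H.pull (F Z)) χ τ))

end Pool.Agent.L0h12.NR
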