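import Mathlib
import Pool.Agent.L0h12.NR.Base

/-!
# Independent groups of complex numbers

Multiplicative relations, up to roots of powers of `q`, between elements of groups of algebraic
numbers without common Galois constituents.
-/

set_option autoImplicit false

open Finset

namespace Pool.Agent.L0h12.NR

variable {q : ℕ}

theorem conj_one (n : (ℂ ≃+* ℂ) →₀ ℤ) : conj n 1 = 1 := by
  unfold conj Finsupp.prod
  refine Finset.prod_eq_one fun σ _ => ?_
  beta_reduce
  rw [map_one, one_zpow]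

theorem conj_mul (n : (ℂ ≃+* ℂ) →₀ ℤ) (x y : ℂˣ) : conj n (x * y) = conj n x * conj n y := by
  unfold conj Finsupp.prod
  rw [← Finset.prod_mul_distrib]
  refine Finset.prod_congr rfl fun σ _ => ?_
  beta_reduce
  rw [map_mul, mul_zpow]

/-- as a homomorphism -/
noncomputable def conjHom (n : (ℂ ≃+* ℂ) →₀ ℤ) : ℂˣ →* ℂˣ where
  toFun := conj n
  map_one' := conj_one n
  map_mul' := conj_mul n

theorem conj_prod (n : (ℂ ≃+* ℂ) →₀ ℤ) {ι : Type} (I : Finset ι) (x : ι → ℂˣ) :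
    conj n (∏ i ∈ I, x i) = ∏ i ∈ I, conj n (x i) :=
  map_prod (conjHom n) x I

theorem conj_mem {Γ : Subgroup ℂˣ} (h : IsStable Γ) (n : (ℂ ≃+* ℂ) →₀ ℤ) {x : ℂˣ}
    (hx : x ∈ Γ) : conj n x ∈ Γ :=
  Subgroup.prod_mem _ fun σ _ => Subgroup.zpow_mem _ (h σ x hx) _

/-- trivial elements -/
theorem isTrivial_iff (hq : q ≠ 0) (x : ℂˣ) : IsTrivial q x ↔
    ∃ m : ℕ, 0 < m ∧ ∃ k : ℤ, x ^ m = (Units.mk0 (q : ℂ) (by exact_mod_cast hq)) ^ k := by
  unfold IsTrivial
  refine exists_congr fun m => and_congr_right fun _ => exists_congr fun k => ?_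
  rw [← Units.val_inj]
  push_cast
  rfl

theorem isTrivial_one : IsTrivial q 1 := ⟨1, one_pos, 0, by simp⟩

theorem IsTrivial.mul (hq : q ≠ 0) {x y : ℂˣ} (hx : IsTrivial q x) (hy : IsTrivial q y) :
    IsTrivial q (x * y) := by
  rw [isTrivial_iff hq] at *
  obtain ⟨m, hm, k, h1⟩ := hx
  obtain ⟨n, hn, l, h2⟩ := hy
  refine ⟨m * n, Nat.mul_pos hm hn, k * n + l * m, ?_⟩
  rw [mul_pow, pow_mul, h1, mul_comm m n, pow_mul, h2, zpow_add, zpow_mul, zpow_mul]
  norm_cast

theorem IsTrivial.inv (hq : q ≠ 0) {x : ℂˣ} (hx : IsTrivial q x) : IsTrivial q x⁻¹ := by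
  rw [isTrivial_iff hq] at *
  obtain ⟨m, hm, k, h1⟩ := hx
  exact ⟨m, hm, -k, by rw [inv_pow, h1, zpow_neg]⟩

theorem IsTrivial.pow (hq : q ≠ 0) {x : ℂˣ} (hx : IsTrivial q x) (n : ℕ) :
    IsTrivial q (x ^ n) := by
  induction n with
  | zero => rw [pow_zero]; exact isTrivial_one
  | succ n ih => rw [pow_succ]; exact ih.mul hq hx

theorem IsTrivial.zpow (hq : q ≠ 0) {x : ℂˣ} (hx : IsTrivial q x) (n : ℤ) :
    IsTrivial q (x ^ n) := by
  obtain ⟨n, rfl | rfl⟩ := n.eq_nat_or_neg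
  · rw [zpow_natCast]; exact hx.pow hq n
  · rw [zpow_neg, zpow_natCast]; exact (hx.pow hq n).inv hq

theorem IsTrivial.prod (hq : q ≠ 0) {ι : Type} {I : Finset ι} {x : ι → ℂˣ}
    (h : ∀ i ∈ I, IsTrivial q (x i)) : IsTrivial q (∏ i ∈ I, x i) := by
  classical
  induction I using Finset.induction_on with
  | empty => rw [Finset.prod_empty]; exact isTrivial_one
  | insert i I hi ih =>
    rw [Finset.prod_insert hi]
    exact (h i (mem_insert_self i I)).mul hq (ih fun j hj => h j (mem_insert_of_mem hj))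

theorem isTrivial_mul_left (hq : q ≠ 0) {x y : ℂˣ} (hx : IsTrivial q x)
    (hxy : IsTrivial q (x * y)) : IsTrivial q y := by
  have h := (hx.inv hq).mul hq hxy
  rwa [inv_mul_cancel_left] at h

theorem IsTrivial.map {x : ℂˣ} (hx : IsTrivial q x) (σ : ℂ ≃+* ℂ) :
    IsTrivial q (Units.mapEquiv σ.toMulEquiv x) := by
  obtain ⟨m, hm, k, h⟩ := hx
  refine ⟨m, hm, k, ?_⟩
  have h1 : ((Units.mapEquiv σ.toMulEquiv x : ℂˣ) : ℂ) = σ (x : ℂ) := rfl
  rw [h1, ← map_pow, h, map_zpow₀, map_natCast]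

theorem IsTrivial.conj (hq : q ≠ 0) {x : ℂˣ} (hx : IsTrivial q x) (n : (ℂ ≃+* ℂ) →₀ ℤ) :
    IsTrivial q (conj n x) :=
  IsTrivial.prod hq fun σ _ => (hx.map σ).zpow hq _

/-- **A relation between elements of disjoint groups gives a relation with one element.** -/
theorem reduce (hq : q ≠ 0) {ι : Type} {Γ : ι → Subgroup ℂˣ} (hst : ∀ i, IsStable (Γ i))
    (hdis : Pairwise fun i j => IsDisjoint q (Γ i) (Γ j)) (P : ℂˣ → Prop)
    (hP : ∀ n b, P b → P (Pool.Agent.L0h12.NR.conj n b)) :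
    ∀ (N : ℕ) (I : Finset ι), I.card = N → I.Nonempty → ∀ a : ι → ℂˣ,
      (∀ i ∈ I, a i ∈ Γ i ∧ ¬ IsTrivial q (a i)) → ∀ b, P b → IsTrivial q ((∏ i ∈ I, a i) * b) →
      ∃ i ∈ I, ∃ x ∈ Γ i, ¬ IsTrivial q x ∧ ∃ b', P b' ∧ IsTrivial q (x * b') := by
  classical
  intro N
  induction N using Nat.strong_induction_on with
  | _ N ih =>
    intro I hN hI a ha b hb hrel
    rcases eq_or_ne I.card 1 with h1 | h1
    · obtain ⟨i, rfl⟩ := Finset.card_eq_one.1 h1
      rw [Finset.prod_singleton] at hrel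
      exact ⟨i, mem_singleton_self i, a i, (ha i (mem_singleton_self i)).1,
        (ha i (mem_singleton_self i)).2, b, hb, hrel⟩
    · have h2 : 1 < I.card := by
        have := hI.card_pos
        omega
      obtain ⟨i, hi, j, hj, hij⟩ := Finset.one_lt_card.1 h2
      obtain ⟨n, hn1, hn2⟩ := hdis hij (a i) (ha i hi).1 (a j) (ha j hj).1 (ha i hi).2 (ha j hj).2
      set I' := I.filter fun k => ¬ IsTrivial q (conj n (a k)) with hI'
      have hlt : I'.card < N := by
        rw [← hN]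
        refine Finset.card_lt_card ⟨Finset.filter_subset _ _, fun h => ?_⟩
        exact (Finset.mem_filter.1 (h hi)).2 hn1
      have hne : I'.Nonempty := ⟨j, Finset.mem_filter.2 ⟨hj, hn2⟩⟩
      have hrel' : IsTrivial q ((∏ k ∈ I', conj n (a k)) * conj n b) := by
        have h3 := hrel.conj hq n
        rw [conj_mul, conj_prod, ← Finset.prod_filter_mul_prod_filter_not I
          (fun k => ¬ IsTrivial q (conj n (a k)))] at h3
        have h4 : IsTrivial q (∏ k ∈ I.filter (fun k => ¬ ¬ IsTrivial q (conj n (a k))),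
            conj n (a k)) :=
          IsTrivial.prod hq fun k hk => not_not.1 (Finset.mem_filter.1 hk).2
        refine isTrivial_mul_left hq h4 ?_
        rw [mul_comm (∏ k ∈ I.filter fun k => ¬ IsTrivial q (conj n (a k)), conj n (a k)),
          mul_assoc] at h3
        exact h3
      obtain ⟨k, hk, x, hx⟩ := ih _ hlt I' rfl hne (fun k => conj n (a k))
        (fun k hk => ⟨conj_mem (hst k) n (ha k (Finset.mem_filter.1 hk).1).1,
          (Finset.mem_filter.1 hk).2⟩) (conj n b) (hP n b hb) hrel'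
      exact ⟨k, (Finset.mem_filter.1 hk).1, x, hx⟩

/-- There are no relations between elements of disjoint groups. -/
theorem trivial_of_prod (hq : q ≠ 0) {ι : Type} {Γ : ι → Subgroup ℂˣ} (hst : ∀ i, IsStable (Γ i))
    (hdis : Pairwise fun i j => IsDisjoint q (Γ i) (Γ j)) {I : Finset ι} {z : ι → ℂˣ}
    (hz : ∀ i ∈ I, z i ∈ Γ i) (h : IsTrivial q (∏ i ∈ I, z i)) : ∀ i ∈ I, IsTrivial q (z i) := by
  classical
  by_contra hcon
  push Not at hcon
  obtain ⟨i, hi, hni⟩ := hcon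
  set I' := I.filter fun k => ¬ IsTrivial q (z k) with hI'
  have h4 : IsTrivial q (∏ k ∈ I.filter (fun k => ¬ ¬ IsTrivial q (z k)), z k) :=
    IsTrivial.prod hq fun k hk => not_not.1 (Finset.mem_filter.1 hk).2
  rw [← Finset.prod_filter_mul_prod_filter_not I (fun k => ¬ IsTrivial q (z k)), mul_comm] at h
  have h5 := isTrivial_mul_left hq h4 h
  obtain ⟨k, _, x, _, hx, b, rfl, hb⟩ := reduce hq hst hdis (fun b => b = 1)
    (fun n b hb => by rw [hb, conj_one]) _ I' rfl ⟨i, Finset.mem_filter.2 ⟨hi, hni⟩⟩ z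
    (fun k hk => ⟨hz k (Finset.mem_filter.1 hk).1, (Finset.mem_filter.1 hk).2⟩) 1 rfl
    (by rw [mul_one]; exact h5)
  rw [mul_one] at hb
  exact hx hb

theorem hull_stable (B : Set ℂ) : IsStable (hull B) := by
  intro σ x hx
  have h1 : ∀ x ∈ hull B, Units.mapEquiv σ.toMulEquiv x ∈ hull B := by
    intro x hx
    induction hx using Subgroup.closure_induction with
    | mem u hu =>
      obtain ⟨τ, b, hb, hu⟩ := hu
      refine Subgroup.subset_closure ⟨τ.trans σ, b, hb, ?_⟩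
      change σ (u : ℂ) = σ (τ b)
      rw [hu]
    | one => rw [map_one]; exact one_mem _
    | mul x y _ _ hx hy => rw [map_mul]; exact mul_mem hx hy
    | inv x _ hx => rw [map_inv]; exact inv_mem hx
  exact h1 x hx

/-- **The groups which meet a group of small rank.** -/
theorem sum_le (hq : q ≠ 0) {ι : Type} {Γ : ι → Subgroup ℂˣ} (hst : ∀ i, IsStable (Γ i))
    (hdis : Pairwise fun i j => IsDisjoint q (Γ i) (Γ j)) {g : ι → ℕ}
    (hg : ∀ i, IsLarge q (g i) (Γ i)) {r : ℕ} {Δ : Subgroup ℂˣ} (hΔ : IsStable Δ)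
    (hr : HasRankLE q r Δ) (S : Finset ι) (hS : ∀ i ∈ S, Meets q (Γ i) Δ) :
    ∑ i ∈ S, g i ≤ r := by
  classical
  by_contra hcon
  push Not at hcon
  choose! x hxΓ hxn b hbΔ hxb using hS
  have h1 : ∀ i : ι, ∃ n : Fin (g i) → (ℂ ≃+* ℂ) →₀ ℤ, i ∈ S → IsIndep q fun j => conj (n j) (x i) := by
    intro i
    by_cases hi : i ∈ S
    · obtain ⟨n, hn⟩ := hg i (x i) (hxΓ i hi) (hxn i hi)
      exact ⟨n, fun _ => hn⟩
    · exact ⟨0, fun h => absurd h hi⟩
  choose n hn using h1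
  have hcard : Fintype.card (Fin (r + 1)) ≤ Fintype.card (Σ i : S, Fin (g i)) := by
    rw [Fintype.card_sigma, Fintype.card_fin]
    simp only [Fintype.card_fin]
    rw [Finset.sum_coe_sort S g]
    exact hcon
  obtain ⟨e⟩ := Function.Embedding.nonempty_of_card_le hcard
  obtain ⟨m, hm⟩ : ∃ m : Fin (r + 1) → ℤ,
      IsTrivial q (∏ t, conj (n (e t).1 (e t).2) (b (e t).1) ^ m t) ∧ m ≠ 0 := by
    have h2 := hr (fun t => conj (n (e t).1 (e t).2) (b (e t).1))
      (fun t => conj_mem hΔ _ (hbΔ _ (e t).1.2))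
    unfold IsIndep at h2
    push Not at h2
    exact h2
  obtain ⟨hm1, hm2⟩ := hm
  -- the relation between the `x`
  have h3 : IsTrivial q (∏ t, conj (n (e t).1 (e t).2) (x (e t).1) ^ m t) := by
    have h4 : IsTrivial q (∏ t, conj (n (e t).1 (e t).2) (x (e t).1 * b (e t).1) ^ m t) :=
      IsTrivial.prod hq fun t _ => ((hxb _ (e t).1.2).conj hq _).zpow hq _
    have h5 : ∏ t, conj (n (e t).1 (e t).2) (x (e t).1 * b (e t).1) ^ m t =
        (∏ t, conj (n (e t).1 (e t).2) (b (e t).1) ^ m t) *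
          ∏ t, conj (n (e t).1 (e t).2) (x (e t).1) ^ m t := by
      rw [← Finset.prod_mul_distrib]
      refine Finset.prod_congr rfl fun t _ => ?_
      rw [conj_mul, mul_zpow, mul_comm]
    rw [h5] at h4
    exact isTrivial_mul_left hq hm1 h4
  -- collect
  set M : (i : S) → Fin (g i) → ℤ := fun i j => ∑ t, if e t = ⟨i, j⟩ then m t else 0 with hM
  set z : S → ℂˣ := fun i => ∏ j, conj (n i j) (x i) ^ M i j with hz
  have h6 : ∏ t, conj (n (e t).1 (e t).2) (x (e t).1) ^ m t = ∏ i : S, z i := by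
    have h7 : ∏ i : S, z i = ∏ p : (Σ i : S, Fin (g i)), conj (n p.1 p.2) (x p.1) ^ M p.1 p.2 := by
      rw [Fintype.prod_sigma]
    rw [h7]
    have h8 : ∀ p : (Σ i : S, Fin (g i)), conj (n p.1 p.2) (x p.1) ^ M p.1 p.2 =
        ∏ t, if e t = p then conj (n p.1 p.2) (x p.1) ^ m t else 1 := by
      intro p
      rw [hM]
      simp only
      have h9 : ∀ (u : ℂˣ) (f : Fin (r + 1) → ℤ), u ^ (∑ t, f t) = ∏ t, u ^ f t := by
        intro u f
        induction (Finset.univ : Finset (Fin (r + 1))) using Finset.induction_on with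
        | empty => simp
        | insert a s ha ih => rw [Finset.sum_insert ha, Finset.prod_insert ha, zpow_add, ih]
      rw [h9]
      refine Finset.prod_congr rfl fun t _ => ?_
      split_ifs <;> simp
    rw [Finset.prod_congr rfl fun p _ => h8 p, Finset.prod_comm]
    refine Finset.prod_congr rfl fun t _ => ?_
    rw [Finset.prod_ite_eq]
    simp
  rw [h6] at h3
  have h10 : ∀ i : S, IsTrivial q (z i) := by
    have h11 := trivial_of_prod hq (ι := S) (Γ := fun i => Γ i) (fun i => hst i)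
      (fun i j hij => hdis fun h => hij (Subtype.ext h)) (I := Finset.univ) (z := z)
      (fun i _ => Subgroup.prod_mem _ fun j _ =>
        Subgroup.zpow_mem _ (conj_mem (hst i) _ (hxΓ i i.2)) _) h3
    exact fun i => h11 i (Finset.mem_univ i)
  have h12 : ∀ i : S, M i = 0 := fun i => hn i i.2 _ (h10 i)
  apply hm2
  funext t
  have h13 : M (e t).1 (e t).2 = m t := by
    rw [hM]
    simp only
    rw [Finset.sum_eq_single t]
    · simp
    · intro s _ hs
      rw [if_neg]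
      intro h
      exact hs (e.injective h)
    · intro h
      exact absurd (Finset.mem_univ t) h
  rw [← h13, h12]
  rfl

/-- the exceptional set -/
theorem exists_exceptions (hq : q ≠ 0) {ι : Type} {Γ : ι → Subgroup ℂˣ}
    (hst : ∀ i, IsStable (Γ i)) (hdis : Pairwise fun i j => IsDisjoint q (Γ i) (Γ j)) {g : ι → ℕ}
    (hg : ∀ i, IsLarge q (g i) (Γ i)) (hpos : ∀ i, 0 < g i) {r : ℕ} {Δ : Subgroup ℂˣ}
    (hΔ : IsStable Δ) (hr : HasRankLE q r Δ) :
    ∃ S : Finset ι, ∑ i ∈ S, g i ≤ r ∧ ∀ i, i ∈ S ↔ Meets q (Γ i) Δ := by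
  classical
  have h1 : ∀ S : Finset ι, (∀ i ∈ S, Meets q (Γ i) Δ) → S.card ≤ r := by
    intro S hS
    refine le_trans ?_ (sum_le hq hst hdis hg hΔ hr S hS)
    rw [Finset.card_eq_sum_ones]
    exact Finset.sum_le_sum fun i _ => hpos i
  have h2 : {i | Meets q (Γ i) Δ}.Finite := by
    by_contra hinf
    obtain ⟨t, ht, hc⟩ := Set.Infinite.exists_subset_card_eq (s := {i | Meets q (Γ i) Δ}) hinf (r + 1)
    have := h1 t fun i hi => ht hi
    omega
  refine ⟨h2.toFinset, sum_le hq hst hdis hg hΔ hr _ fun i hi => ?_, fun i => ?_⟩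
  · exact (Set.Finite.mem_toFinset h2).1 hi
  · exact Set.Finite.mem_toFinset h2

end Pool.Agent.L0h12.NR
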