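import Mathlib
import Pool.Agent.H977R3.CM.Aut
import Pool.Agent.L0h12.NR.Ind

/-!
# The groups of ordinary elliptic curves
-/

set_option autoImplicit false

open Finset

namespace Pool.Agent.L0h12.NR

variable {q : ℕ}

theorem isTrivial_of_pow {x : ℂˣ} {n : ℕ} (hn : 0 < n) (h : IsTrivial q (x ^ n)) :
    IsTrivial q x := by
  obtain ⟨m, hm, k, h1⟩ := h
  refine ⟨n * m, Nat.mul_pos hn hm, k, ?_⟩
  rw [pow_mul, ← h1]
  norm_cast

theorem isTrivial_of_zpow (hq : q ≠ 0) {x : ℂˣ} {n : ℤ} (hn : n ≠ 0) (h : IsTrivial q (x ^ n)) :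
    IsTrivial q x := by
  obtain ⟨m, rfl | rfl⟩ := n.eq_nat_or_neg
  · rw [zpow_natCast] at h
    exact isTrivial_of_pow (by omega) h
  · rw [zpow_neg, zpow_natCast] at h
    have h1 := h.inv hq
    rw [inv_inv] at h1
    exact isTrivial_of_pow (by omega) h1

theorem conj_add (n m : (ℂ ≃+* ℂ) →₀ ℤ) (x : ℂˣ) : conj (n + m) x = conj n x * conj m x := by
  unfold conj
  classical
  rw [Finsupp.prod_add_index']
  · intro σ; exact zpow_zero _
  · intro σ b c; exact zpow_add _ _ _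

theorem conj_single (σ : ℂ ≃+* ℂ) (k : ℤ) (x : ℂˣ) :
    conj (Finsupp.single σ k) x = Units.mapEquiv σ.toMulEquiv x ^ k := by
  unfold conj
  rw [Finsupp.prod_single_index]
  exact zpow_zero _

theorem isTrivial_q (hq : q ≠ 0) : IsTrivial q (Units.mk0 (q : ℂ) (by exact_mod_cast hq)) :=
  ⟨1, one_pos, 1, by simp⟩

/-- the conjugate of `x` -/
theorem IsOrdinary.conj_eq {a : ℤ} {x : ℂˣ} (h : IsOrdinary q a x) :
    starRingEnd ℂ (x : ℂ) = a - x := by
  have hre : (starRingEnd ℂ (x : ℂ)) ^ 2 - a * starRingEnd ℂ (x : ℂ) + q = 0 := by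
    have := congrArg (starRingEnd ℂ) h.root
    simpa using this
  have hne : starRingEnd ℂ (x : ℂ) ≠ x := by
    intro hreal
    obtain ⟨r, hr⟩ := Complex.conj_eq_iff_real.1 hreal
    have h8 := h.root
    rw [hr] at h8
    have h9 : r ^ 2 - a * r + q = 0 := by exact_mod_cast h8
    have h10 : ((a : ℝ)) ^ 2 < 4 * q := by exact_mod_cast h.lt
    nlinarith [sq_nonneg (2 * r - a)]
  have h8 : (starRingEnd ℂ (x : ℂ) - x) * (starRingEnd ℂ (x : ℂ) - (a - x)) = 0 := by
    linear_combination hre - h.root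
  exact sub_eq_zero.1 ((mul_eq_zero.1 h8).resolve_left (sub_ne_zero.2 hne))

theorem IsOrdinary.norm_sq {a : ℤ} {x : ℂˣ} (h : IsOrdinary q a x) : ‖(x : ℂ)‖ ^ 2 = q := by
  have h10 : ((‖(x : ℂ)‖ ^ 2 : ℝ) : ℂ) = ((q : ℝ) : ℂ) := by
    push_cast
    rw [← Complex.mul_conj', h.conj_eq]
    linear_combination -h.root
  exact_mod_cast h10

/-- **An ordinary Frobenius eigenvalue is not a root of a power of `q`.** -/
theorem IsOrdinary.not_trivial {a : ℤ} {x : ℂˣ} (h : IsOrdinary q a x) (hq : 1 < q) :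
    ¬ IsTrivial q x := by
  rintro ⟨m, hm, k, h1⟩
  have hqR : (1 : ℝ) < q := by exact_mod_cast hq
  -- `m = 2 k`
  have h2 : (m : ℤ) = 2 * k := by
    have h3 := congrArg (fun z : ℂ => ‖z‖ ^ 2) h1
    simp only [norm_pow, norm_zpow, Complex.norm_natCast] at h3
    rw [← pow_mul, mul_comm m 2, pow_mul, h.norm_sq, ← zpow_natCast, ← zpow_natCast,
      ← zpow_mul] at h3
    have h4 := zpow_right_injective₀ (by linarith) hqR.ne' h3
    push_cast at h4
    omega
  obtain ⟨k', rfl⟩ : ∃ k' : ℕ, k = k' + 1 := ⟨(k - 1).toNat, by omega⟩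
  obtain ⟨m', rfl⟩ : ∃ m' : ℕ, m = m' + 1 := ⟨m - 1, by omega⟩
  set y : ℂ := a - x with hy
  have hyx : y ^ 2 - a * y + q = 0 := by
    rw [hy]
    linear_combination h.root
  have h3 : y ^ (m' + 1) = (q : ℂ) ^ ((k' : ℤ) + 1) := by
    rw [hy, ← h.conj_eq, ← map_pow, h1, map_zpow₀, map_natCast]
  have htr : ∀ m : ℕ, ∃ t : ℤ, (x : ℂ) ^ (m + 1) + y ^ (m + 1) = t ∧ ∃ s : ℤ,
      (x : ℂ) ^ (m + 2) + y ^ (m + 2) = s ∧ (q : ℤ) ∣ t - a ^ (m + 1) ∧ (q : ℤ) ∣ s - a ^ (m + 2) := by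
    intro m
    induction m with
    | zero =>
      refine ⟨a, by rw [hy]; ring, a ^ 2 - 2 * q, ?_, by simp, ⟨-2, by ring⟩⟩
      push_cast
      have h4 : y ^ 2 = a * y - q := by linear_combination hyx
      have h5 : (x : ℂ) ^ 2 = a * x - q := by linear_combination h.root
      have h6 : (x : ℂ) ^ (0 + 2) + y ^ (0 + 2) = x ^ 2 + y ^ 2 := by norm_num
      rw [h6, h4, h5, hy]
      ring
    | succ m ih =>
      obtain ⟨t, ht, s, hs, hd1, hd2⟩ := ih
      refine ⟨s, hs, a * s - q * t, ?_, hd2, ?_⟩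
      · push_cast
        rw [← hs, ← ht]
        have e1 : (x : ℂ) ^ (m + 1 + 2) = x ^ (m + 1) * (a * x - q) := by
          rw [pow_add]; congr 1; linear_combination h.root
        have e2 : y ^ (m + 1 + 2) = y ^ (m + 1) * (a * y - q) := by
          rw [pow_add]; congr 1; linear_combination hyx
        rw [e1, e2]
        ring
      · obtain ⟨u, hu⟩ := hd2
        refine ⟨a * u - t, ?_⟩
        have h4 : s = q * u + a ^ (m + 2) := by linear_combination hu
        rw [h4]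
        ring
  obtain ⟨t, ht, -, -, hd, -⟩ := htr m'
  have h4 : t = 2 * (q : ℤ) ^ (k' + 1) := by
    have h5 : (t : ℂ) = ((2 * (q : ℤ) ^ (k' + 1) : ℤ) : ℂ) := by
      rw [← ht, h1, h3]
      push_cast
      rw [show ((k' : ℤ) + 1) = ((k' + 1 : ℕ) : ℤ) by push_cast; ring, zpow_natCast]
      ring
    exact_mod_cast h5
  have h5 : (q : ℤ) ∣ a ^ (m' + 1) := by
    have h6 : (q : ℤ) ∣ t := by rw [h4]; exact Dvd.dvd.mul_left (dvd_pow_self _ (by omega)) _
    have h7 := dvd_sub h6 hd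
    rwa [sub_sub_cancel] at h7
  have h6 : IsUnit (q : ℤ) := (h.coprime.pow_left (m := m' + 1)).isUnit_of_dvd' h5 dvd_rfl
  have h7 := Int.isUnit_iff.1 h6
  omega

/-- elements of the hull -/
theorem exists_zpow (hq : q ≠ 0) {a : ℤ} {x : ℂˣ} (h : IsOrdinary q a x) {y : ℂˣ}
    (hy : y ∈ hull {(x : ℂ)}) : ∃ c : ℤ, IsTrivial q (y * x ^ c) := by
  induction hy using Subgroup.closure_induction with
  | mem u hu =>
    obtain ⟨σ, b, rfl, hu⟩ := hu
    have h1 : (u : ℂ) ^ 2 - a * u + q = 0 := by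
      rw [hu]
      have := congrArg σ h.root
      simpa using this
    have h2 : ((u : ℂ) - x) * (u * x - q) = 0 := by
      have h3 : (x : ℂ) ≠ 0 := x.ne_zero
      have h4 : ((u : ℂ) - x) * (u - (a - x)) = 0 := by linear_combination h1 - h.root
      have h5 : (u : ℂ) * x - q = x * (u - (a - x)) := by linear_combination -h.root
      rw [h5]
      linear_combination (x : ℂ) * h4
    rcases mul_eq_zero.1 h2 with h3 | h3
    · refine ⟨-1, ?_⟩
      have h4 : u = x := Units.ext (sub_eq_zero.1 h3)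
      rw [h4, zpow_neg_one, mul_inv_cancel]
      exact isTrivial_one
    · refine ⟨1, ?_⟩
      have h4 : u * x ^ (1 : ℤ) = Units.mk0 (q : ℂ) (by exact_mod_cast hq) := by
        apply Units.ext
        rw [zpow_one, Units.val_mul, Units.val_mk0]
        exact sub_eq_zero.1 h3
      rw [h4]
      exact isTrivial_q hq
  | one => exact ⟨0, by rw [zpow_zero, mul_one]; exact isTrivial_one⟩
  | mul y z _ _ hy hz =>
    obtain ⟨c, hc⟩ := hy
    obtain ⟨d, hd⟩ := hz
    refine ⟨c + d, ?_⟩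
    have := hc.mul hq hd
    rwa [show y * x ^ c * (z * x ^ d) = y * z * x ^ (c + d) by rw [zpow_add]; exact mul_mul_mul_comm _ _ _ _]
      at this
  | inv y _ hy =>
    obtain ⟨c, hc⟩ := hy
    refine ⟨-c, ?_⟩
    have := hc.inv hq
    rwa [mul_inv, ← zpow_neg] at this

/-- automorphisms of the complex numbers and conjugate elements -/
theorem exists_aut_root (F : Type) [Field F] [Algebra F ℂ] {x y : ℂ} (hx : IsIntegral F x)
    (h : Polynomial.aeval y (minpoly F x) = 0) : ∃ σ : ℂ ≃+* ℂ, σ x = y := by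
  have hy : IsIntegral F y := ⟨minpoly F x, minpoly.monic hx, h⟩
  have hmx : x ∈ algebraicClosure F ℂ := mem_algebraicClosure_iff'.2 hx
  have hmy : y ∈ algebraicClosure F ℂ := mem_algebraicClosure_iff'.2 hy
  have : IsAlgClosure F (algebraicClosure F ℂ) := inferInstance
  have : Normal F (algebraicClosure F ℂ) := IsAlgClosure.normal F (algebraicClosure F ℂ)
  obtain ⟨g, hg⟩ : ∃ g : (algebraicClosure F ℂ) ≃ₐ[F] (algebraicClosure F ℂ),
      g ⟨x, hmx⟩ = ⟨y, hmy⟩ := by
    refine minpoly.exists_algEquiv_of_root' (Algebra.IsAlgebraic.isAlgebraic _) ?_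
    have h1 : minpoly F (⟨x, hmx⟩ : algebraicClosure F ℂ) = minpoly F x := by
      rw [← minpoly.algebraMap_eq (algebraMap (algebraicClosure F ℂ) ℂ).injective]
      rfl
    rw [h1]
    apply (algebraMap (algebraicClosure F ℂ) ℂ).injective
    rw [← Polynomial.aeval_algebraMap_apply, map_zero]
    exact h
  obtain ⟨σ, hσ⟩ := Pool.Agent.H977R3.CM.exists_aut (algebraMap (algebraicClosure F ℂ) ℂ)
    g.toRingEquiv
  refine ⟨σ, ?_⟩
  have h1 := hσ ⟨x, hmx⟩
  have h2 : g.toRingEquiv ⟨x, hmx⟩ = ⟨y, hmy⟩ := hg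
  rw [h2] at h1
  exact h1

/-- an automorphism which changes the sign of a square root -/
theorem exists_neg {D : ℤ} (hD : ¬ IsSquare D) {w : ℂ} (hw : w ^ 2 = D) :
    ∃ σ : ℂ ≃+* ℂ, σ w = -w := by
  classical
  have hnr : ¬ ∃ r : ℚ, (r : ℂ) = w := by
    rintro ⟨r, rfl⟩
    apply hD
    have h1 : (r : ℚ) ^ 2 = D := by exact_mod_cast hw
    have h2 : IsSquare (D : ℚ) := ⟨r, by rw [← h1, sq]⟩
    exact Rat.isSquare_intCast_iff.1 h2
  have hev : ∀ z : ℂ, z ^ 2 = D →
      Polynomial.eval₂ (algebraMap ℚ ℂ) z (Polynomial.X ^ 2 - Polynomial.C (D : ℚ)) = 0 := by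
    intro z hz
    rw [Polynomial.eval₂_sub, Polynomial.eval₂_pow, Polynomial.eval₂_X, Polynomial.eval₂_C, hz,
      map_intCast, sub_self]
  have hint : IsIntegral ℚ w :=
    ⟨Polynomial.X ^ 2 - Polynomial.C (D : ℚ), Polynomial.monic_X_pow_sub_C _ two_ne_zero, hev w hw⟩
  have hirr : Irreducible (Polynomial.X ^ 2 - Polynomial.C (D : ℚ)) := by
    rw [Polynomial.irreducible_iff_roots_eq_zero_of_degree_le_three
      (by rw [Polynomial.natDegree_X_pow_sub_C]) (by rw [Polynomial.natDegree_X_pow_sub_C]; norm_num)]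
    rw [Multiset.eq_zero_iff_forall_notMem]
    intro r hr
    rw [Polynomial.mem_roots'] at hr
    have h1 : r ^ 2 = D := by
      have := hr.2
      simp only [Polynomial.IsRoot.def, Polynomial.eval_sub, Polynomial.eval_pow,
        Polynomial.eval_X, Polynomial.eval_C] at this
      linarith
    have h2 : ((r : ℂ) - w) * (r + w) = 0 := by
      have h3 : ((r : ℂ)) ^ 2 = D := by exact_mod_cast h1
      linear_combination h3 - hw
    rcases mul_eq_zero.1 h2 with h3 | h3
    · exact hnr ⟨r, sub_eq_zero.1 h3⟩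
    · exact hnr ⟨-r, by push_cast; linear_combination -h3⟩
  have hmin : minpoly ℚ w = Polynomial.X ^ 2 - Polynomial.C (D : ℚ) :=
    (minpoly.eq_of_irreducible_of_monic hirr (hev w hw)
      (Polynomial.monic_X_pow_sub_C _ two_ne_zero)).symm
  refine exists_aut_root ℚ hint ?_
  rw [hmin]
  exact hev (-w) (by rw [neg_sq, hw])

/-- the action of an automorphism -/
theorem map_eq_or {a : ℤ} {x : ℂˣ} (h : IsOrdinary q a x) (σ : ℂ ≃+* ℂ) :
    (σ (2 * x - a) = 2 * x - a ∧ Units.mapEquiv σ.toMulEquiv x = x) ∨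
      (σ (2 * x - a) = -(2 * x - a) ∧
        ((Units.mapEquiv σ.toMulEquiv x * x : ℂˣ) : ℂ) = q) := by
  have h1 : (σ (2 * x - a) - (2 * x - a)) * (σ (2 * x - a) + (2 * x - a)) = 0 := by
    have h2 : (2 * (x : ℂ) - a) ^ 2 = ((a ^ 2 - 4 * q : ℤ) : ℂ) := by
      push_cast
      linear_combination 4 * h.root
    have h3 := congrArg σ h2
    rw [map_pow, map_intCast] at h3
    linear_combination h3 - h2
  have h2 : σ (2 * x - a) = 2 * σ x - a := by
    rw [map_sub, map_mul, map_intCast, map_ofNat]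
  rcases mul_eq_zero.1 h1 with h3 | h3
  · left
    refine ⟨sub_eq_zero.1 h3, Units.ext ?_⟩
    change σ x = x
    rw [h2] at h3
    linear_combination (1 / 2 : ℂ) * h3
  · right
    refine ⟨eq_neg_of_add_eq_zero_left h3, ?_⟩
    change σ x * x = q
    rw [h2] at h3
    linear_combination (x / 2 : ℂ) * h3 - h.root

/-- **The groups of elliptic curves with different discriminants are disjoint.** -/
theorem IsOrdinary.disjoint (hq : 1 < q) {a b : ℤ} {x y : ℂˣ} (hx : IsOrdinary q a x)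
    (hy : IsOrdinary q b y) (hD : ¬ IsSquare ((a ^ 2 - 4 * q) * (b ^ 2 - 4 * q))) :
    IsDisjoint q (hull {(x : ℂ)}) (hull {(y : ℂ)}) := by
  have hq0 : q ≠ 0 := by omega
  intro u hu v hv hun hvn
  obtain ⟨c, hc⟩ := exists_zpow hq0 hx hu
  obtain ⟨d, hd⟩ := exists_zpow hq0 hy hv
  -- `u` is `x ^ (-c)`, `v` is `y ^ (-d)` up to trivial elements
  obtain ⟨σ, hσ⟩ := exists_neg (w := (2 * (x : ℂ) - a) * (2 * y - b)) hD (by
    push_cast
    have h2 : (2 * (x : ℂ) - a) ^ 2 = ((a : ℂ) ^ 2 - 4 * q) := by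
      linear_combination 4 * hx.root
    have h3 : (2 * (y : ℂ) - b) ^ 2 = ((b : ℂ) ^ 2 - 4 * q) := by
      linear_combination 4 * hy.root
    rw [mul_pow, h2, h3])
  have hx0 : (2 * (x : ℂ) - a) ≠ 0 := by
    intro h0
    have h1 : (2 * (x : ℂ) - a) ^ 2 = ((a ^ 2 - 4 * q : ℤ) : ℂ) := by
      push_cast
      linear_combination 4 * hx.root
    rw [h0] at h1
    have h2 : (a ^ 2 - 4 * q : ℤ) = 0 := by
      have h3 : ((a ^ 2 - 4 * q : ℤ) : ℂ) = 0 := by rw [← h1]; ring
      exact_mod_cast h3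
    have := hx.lt
    omega
  have hy0 : (2 * (y : ℂ) - b) ≠ 0 := by
    intro h0
    have h1 : (2 * (y : ℂ) - b) ^ 2 = ((b ^ 2 - 4 * q : ℤ) : ℂ) := by
      push_cast
      linear_combination 4 * hy.root
    rw [h0] at h1
    have h2 : (b ^ 2 - 4 * q : ℤ) = 0 := by
      have h3 : ((b ^ 2 - 4 * q : ℤ) : ℂ) = 0 := by rw [← h1]; ring
      exact_mod_cast h3
    have := hy.lt
    omega
  -- the action on `u`
  have key : ∀ {a : ℤ} {x : ℂˣ} (_ : IsOrdinary q a x) {u : ℂˣ} {c : ℤ}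
      (_ : IsTrivial q (u * x ^ c)) (_ : ¬ IsTrivial q u),
      (Units.mapEquiv σ.toMulEquiv x = x →
        IsTrivial q (Units.mapEquiv σ.toMulEquiv u * u⁻¹) ∧
          ¬ IsTrivial q (Units.mapEquiv σ.toMulEquiv u * u)) ∧
      (((Units.mapEquiv σ.toMulEquiv x * x : ℂˣ) : ℂ) = q →
        IsTrivial q (Units.mapEquiv σ.toMulEquiv u * u) ∧
          ¬ IsTrivial q (Units.mapEquiv σ.toMulEquiv u * u⁻¹)) := by
    intro a x hx u c hc hun
    have h1 := hc.map σ
    rw [map_mul, map_zpow] at h1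
    have h2 : ∀ (h3 : IsTrivial q (Units.mapEquiv σ.toMulEquiv u * u⁻¹))
        (h4 : IsTrivial q (Units.mapEquiv σ.toMulEquiv u * u)), False := by
      intro h3 h4
      have h5 := (h3.inv hq0).mul hq0 h4
      have h6 : (Units.mapEquiv σ.toMulEquiv u * u⁻¹)⁻¹ * (Units.mapEquiv σ.toMulEquiv u * u) =
          u ^ 2 := by
        rw [sq]
        group
      rw [h6] at h5
      exact hun (isTrivial_of_pow two_pos h5)
    constructor
    · intro hs
      rw [hs] at h1
      have h3 : IsTrivial q (Units.mapEquiv σ.toMulEquiv u * u⁻¹) := by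
        have h4 := h1.mul hq0 (hc.inv hq0)
        rwa [mul_inv, mul_mul_mul_comm, mul_inv_cancel, mul_one] at h4
      exact ⟨h3, fun h4 => h2 h3 h4⟩
    · intro hs
      have h3 : IsTrivial q (Units.mapEquiv σ.toMulEquiv u * u) := by
        have h4 := h1.mul hq0 hc
        rw [mul_mul_mul_comm, ← mul_zpow] at h4
        have h5 : IsTrivial q (Units.mapEquiv σ.toMulEquiv x * x) := by
          refine ⟨1, one_pos, 1, ?_⟩
          rw [pow_one, zpow_one, hs]
        have h6 := isTrivial_mul_left hq0 (h5.zpow hq0 c) (by rw [mul_comm]; exact h4)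
        exact h6
      exact ⟨h3, fun h4 => h2 h4 h3⟩
  rcases map_eq_or hx σ with ⟨h1, h2⟩ | ⟨h1, h2⟩ <;>
    rcases map_eq_or hy σ with ⟨h3, h4⟩ | ⟨h3, h4⟩
  · exfalso
    rw [map_mul, h1, h3] at hσ
    have h5 : (2 : ℂ) * ((2 * (x : ℂ) - a) * (2 * y - b)) = 0 := by linear_combination hσ
    exact (mul_ne_zero two_ne_zero (mul_ne_zero hx0 hy0)) h5
  · refine ⟨Finsupp.single σ 1 + Finsupp.single (RingEquiv.refl ℂ) (-1), ?_, ?_⟩
    · rw [conj_add, conj_single, conj_single, zpow_one, zpow_neg_one]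
      exact ((key hx hc hun).1 h2).1
    · rw [conj_add, conj_single, conj_single, zpow_one, zpow_neg_one]
      exact ((key hy hd hvn).2 h4).2
  · refine ⟨Finsupp.single σ 1 + Finsupp.single (RingEquiv.refl ℂ) 1, ?_, ?_⟩
    · rw [conj_add, conj_single, conj_single, zpow_one, zpow_one]
      exact ((key hx hc hun).2 h2).1
    · rw [conj_add, conj_single, conj_single, zpow_one, zpow_one]
      exact ((key hy hd hvn).1 h4).2
  · exfalso
    rw [map_mul, h1, h3] at hσ
    have h5 : (2 : ℂ) * ((2 * (x : ℂ) - a) * (2 * y - b)) = 0 := by linear_combination hσ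
    exact (mul_ne_zero two_ne_zero (mul_ne_zero hx0 hy0)) h5

theorem isLarge_one (hq : q ≠ 0) (Γ : Subgroup ℂˣ) : IsLarge q 1 Γ := by
  intro x _ hn
  refine ⟨fun _ => Finsupp.single (RingEquiv.refl ℂ) 1, fun m hm => ?_⟩
  simp only [Fin.prod_univ_one, conj_single, zpow_one] at hm
  have h1 : (Units.mapEquiv (RingEquiv.refl ℂ).toMulEquiv x : ℂˣ) = x := Units.ext rfl
  rw [h1] at hm
  by_contra hcon
  refine hn (isTrivial_of_zpow hq (n := m 0) ?_ hm)
  intro h0
  apply hcon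
  funext i
  rw [Subsingleton.elim i 0, h0]
  rfl

theorem IsOrdinary.algebraic {a : ℤ} {x : ℂˣ} (h : IsOrdinary q a x) :
    ∀ y ∈ hull {(x : ℂ)}, IsAlgebraic ℚ (y : ℂ) := by
  intro y hy
  induction hy using Subgroup.closure_induction with
  | mem u hu =>
    obtain ⟨σ, b, rfl, hu⟩ := hu
    have h1 : (u : ℂ) ^ 2 - a * u + q = 0 := by
      rw [hu]
      have := congrArg σ h.root
      simpa using this
    refine IsIntegral.isAlgebraic ⟨Polynomial.X ^ 2 - Polynomial.C (a : ℚ) * Polynomial.X +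
      Polynomial.C (q : ℚ), ?_, ?_⟩
    · monicity!
    · rw [Polynomial.eval₂_add, Polynomial.eval₂_sub, Polynomial.eval₂_mul, Polynomial.eval₂_pow,
        Polynomial.eval₂_X, Polynomial.eval₂_C, Polynomial.eval₂_C, map_intCast, map_natCast]
      exact h1
  | one => rw [Units.val_one]; exact isAlgebraic_one
  | mul y z _ _ hy hz => rw [Units.val_mul]; exact hy.mul hz
  | inv y _ hy => rw [Units.val_inv_eq_inv_val]; exact hy.inv

end Pool.Agent.L0h12.NR
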