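import Pool.Agent.N876.CG.GenT
import Pool.Agent.W484.CK.Main
import Pool.Agent.N876.R816.Proof
import Pool.Agent.L0h12.NR.Defs
import Pool.Agent.L0h12.NR.Ind
import Pool.Agent.L0h12.NR.Ell

/-!
# Proof of `MP_81632f_ag.IndependentFamilies`
-/

set_option autoImplicit false

open Finset Polynomial CategoryTheory AlgebraicGeometry

namespace Pool.Agent.L0h12.NR

open Pool.Agent.H914 Pool.Agent.H914.VarClass Pool.Agent.H914.VarClass.Obj Pool.Agent.W492.BB
  Pool.Agent.W484.CK Pool.Agent.N876.R816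

/-- no resonances -/
theorem nores {q : ℕ} (hq : q ≠ 0) {ι : Type} {Γ : ι → Subgroup ℂˣ} (hst : ∀ i, IsStable (Γ i))
    (hdis : Pairwise fun i j => IsDisjoint q (Γ i) (Γ j)) {Δ : Subgroup ℂˣ} (hΔ : IsStable Δ)
    (hm : ∀ i, ¬ Meets q (Γ i) Δ) {K : Type} [Field K] [CharZero K] (τ : K →+* ℂ) (S : ι → Set K)
    (hS : ∀ i, ∀ α ∈ S i, ∃ x ∈ Γ i, (x : ℂ) = τ α ∧ ¬ IsTrivial q x) (SZ : Set K)
    (hSZ : ∀ β ∈ SZ, β ≠ 0 → ∃ x ∈ Δ, (x : ℂ) = τ β) :
    Pool.Agent.N876.FL.NoResF (q : K) S SZ := by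
  classical
  intro I hI α hα β hβ e m w hm0 heq
  have hqK : (q : K) ≠ 0 := by exact_mod_cast hq
  have hqC : (q : ℂ) ≠ 0 := by exact_mod_cast hq
  have hβ0 : β ≠ 0 := by
    rintro rfl
    rw [mul_zero, zero_pow hm0.ne'] at heq
    exact pow_ne_zero _ hqK heq.symm
  obtain ⟨b, hbΔ, hb⟩ := hSZ β hβ hβ0
  have h1 : ∀ i : ι, ∃ x : ℂˣ, i ∈ I → x ∈ Γ i ∧ (x : ℂ) = τ (α i) ∧ ¬ IsTrivial q x := by
    intro i
    by_cases hi : i ∈ I
    · obtain ⟨x, hx⟩ := hS i (α i) (hα i hi)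
      exact ⟨x, fun _ => hx⟩
    · exact ⟨1, fun h => absurd h hi⟩
  choose a ha using h1
  have hrel : IsTrivial q ((∏ i ∈ I, a i) * b) := by
    refine ⟨m, hm0, (m * w : ℕ) - (e * m : ℕ), ?_⟩
    have h2 : (((∏ i ∈ I, a i) * b : ℂˣ) : ℂ) = τ ((∏ i ∈ I, α i) * β) := by
      rw [Units.val_mul, Units.coe_prod, map_mul, map_prod, hb]
      congr 1
      exact Finset.prod_congr rfl fun i hi => (ha i hi).2.1
    rw [h2, ← map_pow]
    have h3 : τ (((∏ i ∈ I, α i) * (q : K) ^ e * β) ^ m) = (q : ℂ) ^ (m * w) := by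
      rw [heq, map_pow, map_natCast]
    have h4 : ((∏ i ∈ I, α i) * (q : K) ^ e * β) ^ m =
        ((∏ i ∈ I, α i) * β) ^ m * (q : K) ^ (e * m) := by
      rw [pow_mul, ← mul_pow]
      congr 1
      ring
    rw [h4, map_mul, map_pow τ (q : K), map_natCast] at h3
    rw [zpow_sub₀ hqC, zpow_natCast, zpow_natCast, ← h3,
      mul_div_cancel_right₀ _ (pow_ne_zero _ hqC)]
  obtain ⟨i, _, x, hx, hxn, b', hb', hxb⟩ := reduce hq hst hdis (fun b => b ∈ Δ)
    (fun n b hb => conj_mem hΔ n hb) _ I rfl hI a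
    (fun i hi => ⟨(ha i hi).1, (ha i hi).2.2⟩) b hbΔ hrel
  exact hm i ⟨x, hx, hxn, b', hb', hxb⟩

theorem bot_stable : IsStable (⊥ : Subgroup ℂˣ) := by
  intro σ x hx
  rw [Subgroup.mem_bot] at *
  rw [hx, map_one]

theorem not_meets_bot {q : ℕ} (Γ : Subgroup ℂˣ) : ¬ Meets q Γ ⊥ := by
  rintro ⟨x, _, hx, b, hb, h⟩
  rw [Subgroup.mem_bot] at hb
  rw [hb, mul_one] at h
  exact hx h

/-- The hypotheses for a family whose groups do not meet the group of `Z` and `U`. -/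
structure Hyp {κ : Type} [Field κ] [Fintype κ] {𝒱 : VarClass κ}
    {A : TheoryData.{0, 0, 0} 𝒱 ℚ} {K : Type} [Field K] [CharZero K] {ι : Type}
    (Γ : ι → Subgroup ℂˣ) (H : WeilTheoryData.{0, 0, 0} A K) (τ : K →+* ℂ)
    (F : ∀ X : 𝒱.Obj, X ⟶ X) (X : ι → 𝒱.Obj) (Z : 𝒱.Obj) (χ : ℚ[X]) : Prop where
  standard : IsStandard H
  frobenius : ∀ X, IsFrobenius A (F X) (Fintype.card κ)
  product : ∀ X Y, F (X.prod Y) = prodMap (F X) (F Y)
  stable : ∀ i, IsStable (Γ i)
  alg : ∀ i, ∀ x ∈ Γ i, IsAlgebraic ℚ (x : ℂ)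
  disjoint : Pairwise fun i j => IsDisjoint (Fintype.card κ) (Γ i) (Γ j)
  cohomology : ∀ i, IsAlgebraOfType (cycleSpan H (X i)) (H.pull (F (X i))) τ (Fintype.card κ) (Γ i)
  polarized : ∀ i, IsPolarized H (X i)
  algebraic : ∀ b ∈ eigenvaluesOf (H.pull (F Z)) τ, IsAlgebraic ℚ b
  ne_zero : χ.coeff 0 ≠ 0
  not_meets : ∀ i, ¬ Meets (Fintype.card κ) (Γ i) (hull (productsOf (H.pull (F Z)) χ τ))

theorem core {κ : Type} [Field κ] [Fintype κ] {ι : Type}
    {𝒱 : VarClass κ} (A : TheoryData.{0, 0, 0} 𝒱 ℚ) [IsChow A] {K : Type} [Field K]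
    [IsAlgClosed K] [CharZero K] (H : WeilTheoryData.{0, 0, 0} A K) [IsWeil H] (τ : K →+* ℂ)
    (Γ : ι → Subgroup ℂˣ)
    (F : ∀ X : 𝒱.Obj, X ⟶ X) (X : ι → 𝒱.Obj) (Z : 𝒱.Obj) (χ : ℚ[X])
    (h : Hyp Γ H τ F X Z χ) (T R : MotivicData A)
    (φT : ∀ X, T.M X →ₗ[ℚ] T.M X) (hT : IsCycleTheory T φT F (Fintype.card κ))
    (φ : ∀ X, R.M X →ₗ[ℚ] R.M X) (hR : IsMixedTheory H R φ χ)
    (reg : ∀ X, T.M X →ₗ[ℚ] R.M X) (hreg : IsRegulator T R φT φ reg) (L : List ι)
    (hL : L.Nodup) : Conclusions H F (Fintype.card κ) χ X Z φT φ reg L := by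
  obtain ⟨hstd, hfrob, hprod, hst, hΓalg, hdis, hcoh, hpol, halg, hχ0, hnm⟩ := h
  have hfin := hstd.finite
  choose T' hσT hT' hcov using hcoh
  have htw : ∀ L : List ι, productOf X Z L = Pool.Agent.N876.CG.tw X Z L := by
    intro L
    induction L with
    | nil => rfl
    | cons i L ih => rw [productOf, Pool.Agent.N876.CG.tw, ih]
  have hdim : ∀ L : List ι, dimension X L = Pool.Agent.N876.CG.dims X L := by
    intro L
    induction L with
    | nil => rfl
    | cons i L ih => rw [dimension, Pool.Agent.N876.CG.dims, ih]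
  have hq0 : Fintype.card κ ≠ 0 := Fintype.card_ne_zero
  have hsys : Pool.Agent.N876.CG.Cr H F (Fintype.card κ) X Z
      (fun i => {α | Module.End.HasEigenvalue
          ((ofHom (H.pull (F (X i)))).restrict (hσT i)) α}) {ρ | aeval ρ χ = 0} :=
    { std := isStandard_bridge hstd
      one_lt := Fintype.one_lt_card
      frob := fun X => isFrobenius_bridge (hfrob X)
      prod := hprod
      cg := fun i => ⟨T' i, hσT i, hT' i, fun α hα => hα⟩
      int := fun i α hα => by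
        obtain ⟨x, hx, h1, _⟩ := hcov i α hα
        refine Pool.Agent.N876.CG.integral_of_emb τ ?_
        rw [← h1]
        exact hΓalg i x hx
      ne := fun i α hα h0 => by
        obtain ⟨x, _, h1, _⟩ := hcov i α hα
        rw [h0, map_zero] at h1
        exact x.ne_zero h1
      intZ := fun β hβ => Pool.Agent.N876.CG.integral_of_emb τ (halg _ ⟨β, hβ, rfl⟩)
      res := by
        refine nores hq0 hst hdis (hull_stable _) hnm τ _ (fun i α hα => hcov i α hα) _ ?_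
        rintro _ ⟨β, ρ, hβ, hρ, rfl⟩ h0
        have h1 : τ (β * ρ) ≠ 0 := (map_ne_zero τ).2 h0
        exact ⟨Units.mk0 _ h1, Subgroup.subset_closure
          ⟨RingEquiv.refl ℂ, τ (β * ρ), ⟨β, ρ, hβ, hρ, rfl⟩, rfl⟩, rfl⟩
      res1 := by
        refine nores hq0 hst hdis bot_stable (fun i => not_meets_bot _) τ _
          (fun i α hα => hcov i α hα) _ ?_
        rintro β hβ _
        rw [Set.mem_singleton_iff] at hβ
        exact ⟨1, Subgroup.mem_bot.2 rfl, by rw [hβ, map_one, Units.val_one]⟩ }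
  have hFr : ∀ X, Pool.Agent.W484.CH.IsFrobenius A (F X) (Fintype.card κ) := hsys.frob
  have hrel : ∀ (R : MotivicData A) (φ : ∀ X, R.M X →ₗ[ℚ] R.M X) (χ : ℚ[X]),
      IsMixedTheory H R φ χ → Pool.Agent.N876.CG.RelTheory
        (Pool.Agent.N876.CG.genT (toCorr R) φ F (Fintype.card κ)) φ F (Fintype.card κ) χ :=
    fun R φ χ hR => Pool.Agent.N876.CG.genT_rel (toCorr_isCorrTheory hR.motivic) hR.comm hq0 hFr
      hprod hsys.std (fun X n t ht => hR.root ht)
  have hnil' : ∀ (R : MotivicData A) (φ : ∀ X, R.M X →ₗ[ℚ] R.M X) (χ : ℚ[X]),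
      IsMixedTheory H R φ χ → ∀ V, Pool.Agent.N876.CG.NilT H
        (Pool.Agent.N876.CG.genT (toCorr R) φ F (Fintype.card κ)) V := by
    intro R φ χ hR V Γ hΓ h0
    refine ⟨1, ?_⟩
    rw [pow_one]
    exact LinearMap.ext fun r => hR.homological Γ hΓ h0 r
  -- invariant elements are generalized eigenvectors
  have hinv : ∀ (V : 𝒱.Obj) (n : ℤ) (r : R.M V), R.Deg n r →
      defect R φ F (Fintype.card κ) V n r = 0 →
      r ∈ (Pool.Agent.N876.CG.genT (toCorr R) φ F (Fintype.card κ)).gr V n := by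
    intro V n r hr h0
    refine Pool.Agent.N876.CG.mem_genT.2 ⟨hr, 1, ?_⟩
    rw [pow_one]
    exact h0
  -- the image of the regulator
  have himg : ∀ (V : 𝒱.Obj) (n : ℤ) (t : T.M V), T.Deg n t →
      defect R φ F (Fintype.card κ) V n (reg V t) = 0 := by
    intro V n t ht
    have h1 : defect R φ F (Fintype.card κ) V n (reg V t) =
        reg V (defect T φT F (Fintype.card κ) V n t) := by
      rw [defect, defect, map_sub, map_smul, hreg.corr, hreg.frob]
    rw [h1, hT.power ht, map_zero]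
  have hS : ∀ (V : 𝒱.Obj) (n : ℤ), IsOnto reg φ F (Fintype.card κ) V n ∧
      IsSemisimpleIn R φ F (Fintype.card κ) V n ↔
      ∀ r ∈ (Pool.Agent.N876.CG.genT (toCorr R) φ F (Fintype.card κ)).gr V n,
        ∃ t ∈ (toCorr T).gr V n, reg V t = r := by
    intro V n
    have hss := Pool.Agent.N876.CG.ss_iff (toCorr_isCorrTheory hR.motivic) hFr
      (fun X n t ht => hR.degree ht) V n
    constructor
    · rintro ⟨h1, h2⟩ r hr
      exact h1 r (Pool.Agent.N876.CG.mem_genT.1 hr).1 (hss.1 h2 r hr)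
    · intro h0
      refine ⟨fun r hr hi => h0 r (hinv V n r hr hi), hss.2 fun r hr => ?_⟩
      obtain ⟨t, ht, rfl⟩ := h0 r hr
      exact himg V n t ht
  have hnat : Pool.Agent.N876.CG.Nat' (toCorr T)
      (Pool.Agent.N876.CG.genT (toCorr R) φ F (Fintype.card κ)) reg :=
    ⟨fun {V n t} ht => hinv V n _ (hreg.mem ht) (himg V n t ht), hreg.corr⟩
  have hcorrT := toCorr_isCorrTheory hT.motivic
  have hcorrR : Pool.Agent.W484.CH.IsCorrTheory
      (Pool.Agent.N876.CG.genT (toCorr R) φ F (Fintype.card κ)) := (hrel R φ χ hR).corr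
  have htate : ∀ n : ℤ, IsOnto reg φ F (Fintype.card κ) (productOf X Z L) n ∧
      IsSemisimpleIn R φ F (Fintype.card κ) (productOf X Z L) n ↔
      ∀ l : ℤ, n - dimension X L ≤ l → l ≤ n → IsOnto reg φ F (Fintype.card κ) Z l ∧
        IsSemisimpleIn R φ F (Fintype.card κ) Z l := by
    intro n
    rw [hS]
    simp only [hS]
    rw [htw L, hdim L]
    exact hsys.induct hpol (fun V n =>
        ∀ r ∈ (Pool.Agent.N876.CG.genT (toCorr R) φ F (Fintype.card κ)).gr V n,
          ∃ t ∈ (toCorr T).gr V n, reg V t = r)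
      (Pool.Agent.N876.CG.genT (toCorr R) φ F (Fintype.card κ)) φ χ hχ0 (fun ρ hρ => hρ)
      (hrel R φ χ hR) (fun L => hnil' R φ χ hR _) (fun i V J _ deg D E h1 h2 n =>
        Pool.Agent.N876.CG.surj_deg h1 hcorrT hcorrR hnat h2 n) hL n
  refine ⟨htate, fun hnil hroot n => ?_⟩
  · have hinj : IsInjective reg (productOf X Z L) n ↔
        ∀ l : ℤ, n - dimension X L ≤ l → l ≤ n → IsInjective reg Z l := by
      rw [htw L, hdim L]
      exact hsys.induct hpol (fun V n => IsInjective reg V n) (toCorr T) φT χ hχ0 (fun ρ hρ => hρ)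
        { corr := hcorrT
          comm := hT.comm
          power := fun X n t ht => ⟨1, by
            rw [pow_one]
            exact hT.power ht⟩
          poly := fun X n t ht => hroot ht }
        (fun L => Pool.Agent.N876.CG.nilT_of hcorrT (by
          rw [← htw L]; exact nilpotence_bridge (hnil L)))
        (fun i V J _ deg D E h1 h2 n =>
          Pool.Agent.N876.CG.inj_deg h1 hcorrT hnat h2 n) hL n
    rw [hinj, htate n]
    exact ⟨fun ⟨h1, h2⟩ l hl1 hl2 => ⟨h1 l hl1 hl2, h2 l hl1 hl2⟩,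
      fun h0 => ⟨fun l hl1 hl2 => (h0 l hl1 hl2).1, fun l hl1 hl2 => (h0 l hl1 hl2).2⟩⟩

theorem main {κ : Type} [Field κ] [Fintype κ] {ι : Type}
    {𝒱 : VarClass κ} (A : TheoryData.{0, 0, 0} 𝒱 ℚ) [IsChow A] {K : Type} [Field K]
    [IsAlgClosed K] [CharZero K] (H : WeilTheoryData.{0, 0, 0} A K) [IsWeil H] (τ : K →+* ℂ)
    (g : ι → ℕ) (Γ : ι → Subgroup ℂˣ) (r : ℕ)
    (F : ∀ X : 𝒱.Obj, X ⟶ X) (X : ι → 𝒱.Obj) (Z : 𝒱.Obj) (χ : ℚ[X])
    (h : IsSystem g Γ r H τ F X Z χ) :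
    ∃ S : Finset ι, ∑ i ∈ S, g i ≤ r ∧
      (∀ i, i ∈ S ↔ Meets (Fintype.card κ) (Γ i) (hull (productsOf (H.pull (F Z)) χ τ))) ∧
      ∀ (T R : MotivicData A) (φT : ∀ X, T.M X →ₗ[ℚ] T.M X)
        (_ : IsCycleTheory T φT F (Fintype.card κ)) (φ : ∀ X, R.M X →ₗ[ℚ] R.M X)
        (_ : IsMixedTheory H R φ χ) (reg : ∀ X, T.M X →ₗ[ℚ] R.M X)
        (_ : IsRegulator T R φT φ reg) (L : List {i // i ∉ S}), L.Nodup →
        Conclusions H F (Fintype.card κ) χ (fun i : {i // i ∉ S} => X i) Z φT φ reg L := by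
  have hq0 : Fintype.card κ ≠ 0 := Fintype.card_ne_zero
  obtain ⟨S, hS1, hS2⟩ := exists_exceptions hq0 h.family.stable h.family.disjoint h.family.large
    h.family.pos (hull_stable _) h.rank
  refine ⟨S, hS1, hS2, fun T R φT hT φ hR reg hreg L hL => ?_⟩
  refine core A H τ (fun i : {i // i ∉ S} => Γ i) F _ Z χ ?_ T R φT hT φ hR reg hreg L hL
  exact
    { standard := h.standard
      frobenius := h.frobenius
      product := h.product
      stable := fun i => h.family.stable i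
      alg := fun i => h.family.algebraic i
      disjoint := fun i j hij => h.family.disjoint fun h0 => hij (Subtype.ext h0)
      cohomology := fun i => h.cohomology i
      polarized := fun i => h.polarized i
      algebraic := h.algebraic
      ne_zero := h.ne_zero
      not_meets := fun i hi => i.2 ((hS2 i).2 hi) }

/-- **The groups of ordinary elliptic curves form an independent family.** -/
theorem ordinary_family {q : ℕ} (hq : 1 < q) {ι : Type} (a : ι → ℤ) (x : ι → ℂˣ)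
    (h : ∀ i, IsOrdinary q (a i) (x i))
    (hD : Pairwise fun i j => ¬ IsSquare ((a i ^ 2 - 4 * q) * (a j ^ 2 - 4 * q))) :
    IsIndependentFamily q (fun _ : ι => 1) fun i => hull {(x i : ℂ)} :=
  { stable := fun i => hull_stable _
    algebraic := fun i => (h i).algebraic
    disjoint := fun i j hij => (h i).disjoint hq (h j) (hD hij)
    pos := fun _ => one_pos
    large := fun i => isLarge_one (by omega) _ }

end Pool.Agent.L0h12.NR
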